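import Mathlib

/-!
# An exotic topological quandle structure on the 2-sphere
-/

set_option autoImplicit false

namespace Pool.Agent.Results.MP_6238b5_al.ExoticQuandle

open Topology Real

/-- The unit sphere of `ℝ³`, with the subspace topology. -/
def S2 : Type := {p : Fin 3 → ℝ // p 0 ^ 2 + p 1 ^ 2 + p 2 ^ 2 = 1}

instance : TopologicalSpace S2 :=
  inferInstanceAs (TopologicalSpace {p : Fin 3 → ℝ // p 0 ^ 2 + p 1 ^ 2 + p 2 ^ 2 = 1})

/-- The image of the vector `u` under the rotation by the angle `ψ` about the axis through `0` and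
the unit vector `v`, in the positive sense with respect to `v` (formula of Rodrigues). -/
noncomputable def rot (ψ : ℝ) (v u : Fin 3 → ℝ) : Fin 3 → ℝ :=
  cos ψ • u + sin ψ • (crossProduct v u) + ((1 - cos ψ) * dotProduct v u) • v

/-- `op` is a continuous quandle operation on the topological space `X`. -/
structure IsTopQuandle {X : Type} [TopologicalSpace X] (op : X → X → X) : Prop where
  idem : ∀ x, op x x = x
  bij : ∀ y, Function.Bijective (fun x => op x y)
  distrib : ∀ x y z, op (op x y) z = op (op x z) (op y z)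
  cont : Continuous (fun p : X × X => op p.1 p.2)

/-- The topological quandle `(S², op)` is isomorphic to the trivial quandle on `S²`. -/
def IsoTrivial (op : S2 → S2 → S2) : Prop :=
  ∃ φ : S2 ≃ₜ S2, ∀ u v, φ (op u v) = φ u

/-- The topological quandle `(S², op)` is isomorphic to the spherical quandle `(S², *_ψ)`. -/
def IsoSpherical (op : S2 → S2 → S2) (ψ : ℝ) : Prop :=
  ∃ φ : S2 ≃ₜ S2, ∀ u v, (φ (op u v)).1 = rot ψ (φ v).1 (φ u).1

/-- The rotation about the third axis. -/
noncomputable def turn (t : ℝ) (u : S2) : S2 :=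
  ⟨![cos t * u.1 0 - sin t * u.1 1, sin t * u.1 0 + cos t * u.1 1, u.1 2], by
    have h := u.2
    have h2 := sin_sq_add_cos_sq t
    simp only [Matrix.cons_val_zero, Matrix.cons_val_one, Matrix.cons_val]
    nlinarith [h, h2]⟩

theorem turn_two (t : ℝ) (u : S2) : (turn t u).1 2 = u.1 2 := rfl

theorem turn_turn (s t : ℝ) (u : S2) : turn s (turn t u) = turn (s + t) u := by
  apply Subtype.ext
  ext i
  fin_cases i
  · simp [turn, cos_add, sin_add]; ring
  · simp [turn, cos_add, sin_add]; ring
  · simp [turn]

theorem turn_zero (u : S2) : turn 0 u = u := by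
  apply Subtype.ext
  ext i
  fin_cases i <;> simp [turn]

theorem continuous_turn : Continuous (fun p : ℝ × S2 => turn p.1 p.2) := by
  apply Continuous.subtype_mk
  have h : Continuous fun p : ℝ × S2 => p.2.1 := continuous_subtype_val.comp continuous_snd
  have h0 : ∀ i, Continuous fun p : ℝ × S2 => p.2.1 i := fun i => (continuous_apply i).comp h
  have hc : Continuous fun p : ℝ × S2 => cos p.1 := continuous_cos.comp continuous_fst
  have hs : Continuous fun p : ℝ × S2 => sin p.1 := continuous_sin.comp continuous_fst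
  apply continuous_pi
  intro i
  fin_cases i
  · exact (hc.mul (h0 0)).sub (hs.mul (h0 1))
  · exact (hs.mul (h0 0)).add (hc.mul (h0 1))
  · exact h0 2

/-- The exotic operation: `u` is rotated about the third axis by the angle
`max (u₃, 0) · max (-v₃, 0)`. -/
noncomputable def op (u v : S2) : S2 := turn (max (u.1 2) 0 * max (-v.1 2) 0) u

theorem op_two (u v : S2) : (op u v).1 2 = u.1 2 := rfl

theorem op_op (x y z : S2) :
    op (op x y) z = turn (max (x.1 2) 0 * max (-z.1 2) 0 + max (x.1 2) 0 * max (-y.1 2) 0) x := by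
  show turn (max ((op x y).1 2) 0 * max (-z.1 2) 0) (turn (max (x.1 2) 0 * max (-y.1 2) 0) x) = _
  rw [turn_turn, op_two]

theorem isTopQuandle_op : IsTopQuandle op where
  idem x := by
    have h : max (x.1 2) 0 * max (-x.1 2) 0 = 0 := by
      rcases le_total (x.1 2) 0 with h | h
      · rw [max_eq_right h, zero_mul]
      · rw [max_eq_right (b := 0) (a := -x.1 2) (by linarith), mul_zero]
    rw [op, h, turn_zero]
  bij y := by
    constructor
    · intro x x' h
      have h' : op x y = op x' y := h
      have h2 : x.1 2 = x'.1 2 := by rw [← op_two x y, h', op_two]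
      have h3 := congrArg (turn (-(max (x.1 2) 0 * max (-y.1 2) 0))) h'
      rw [op, op, h2, turn_turn, turn_turn, neg_add_cancel, turn_zero, turn_zero] at h3
      exact h3
    · intro x
      refine ⟨turn (-(max (x.1 2) 0 * max (-y.1 2) 0)) x, ?_⟩
      show turn (max (x.1 2) 0 * max (-y.1 2) 0) (turn (-(max (x.1 2) 0 * max (-y.1 2) 0)) x) = x
      rw [turn_turn, add_neg_cancel, turn_zero]
  distrib x y z := by
    rw [op_op, op_op, op_two, add_comm]
  cont := by
    have h : Continuous fun p : S2 × S2 => max (p.1.1 2) 0 * max (-p.2.1 2) 0 := by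
      have h1 : Continuous fun p : S2 × S2 => p.1.1 2 :=
        (continuous_apply 2).comp (continuous_subtype_val.comp continuous_fst)
      have h2 : Continuous fun p : S2 × S2 => p.2.1 2 :=
        (continuous_apply 2).comp (continuous_subtype_val.comp continuous_snd)
      exact (h1.max continuous_const).mul (h2.neg.max continuous_const)
    exact (continuous_turn.comp (h.prodMk continuous_fst)).congr (fun p => rfl)

/-- the north pole -/
def north : S2 := ⟨![0, 0, 1], by simp⟩

/-- the south pole -/
def south : S2 := ⟨![0, 0, -1], by simp⟩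

/-- the first basis vector -/
def e0 : S2 := ⟨![1, 0, 0], by simp⟩

/-- the second basis vector -/
def e1 : S2 := ⟨![0, 1, 0], by simp⟩

/-- another point -/
noncomputable def q : S2 := ⟨![3 / 5, 0, 4 / 5], by
  simp only [Matrix.cons_val_zero, Matrix.cons_val_one, Matrix.cons_val]; norm_num⟩

theorem op_north (u : S2) : op u north = u := by
  have h : max (u.1 2) 0 * max (-north.1 2) 0 = 0 := by
    simp [north]
  rw [op, h, turn_zero]

theorem op_q_south : op q south ≠ q := by
  intro h
  have h1 : (op q south).1 1 = q.1 1 := by rw [h]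
  have h2 : (op q south).1 1 = sin (max (q.1 2) 0 * max (-south.1 2) 0) * q.1 0 +
    cos (max (q.1 2) 0 * max (-south.1 2) 0) * q.1 1 := rfl
  rw [h2] at h1
  have h3 : q.1 2 = 4 / 5 := rfl
  have h4 : south.1 2 = -1 := rfl
  have h5 : q.1 0 = 3 / 5 := rfl
  have h6 : q.1 1 = 0 := rfl
  rw [h3, h4, h5, h6] at h1
  have h7 : max (4 / 5 : ℝ) 0 * max (-(-1 : ℝ)) 0 = 4 / 5 := by
    rw [max_eq_left (by norm_num), max_eq_left (by norm_num)]; norm_num
  rw [h7] at h1
  have h8 : 0 < sin (4 / 5 : ℝ) := sin_pos_of_pos_of_lt_pi (by norm_num) (by linarith [pi_gt_three])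
  linarith

/-- If the rotation about the unit vector `w` by `ψ` fixes the unit vector `x`, then `cos ψ = 1` or
`w = ± x`. -/
theorem rot_fixed {ψ : ℝ} {w x : Fin 3 → ℝ} (hx : x 0 ^ 2 + x 1 ^ 2 + x 2 ^ 2 = 1)
    (h : rot ψ w x = x) : (1 - cos ψ) * (1 - dotProduct w x ^ 2) = 0 := by
  have h0 := congrFun h 0
  have h1 := congrFun h 1
  have h2 := congrFun h 2
  simp only [rot, crossProduct, LinearMap.mk₂_apply, Pi.add_apply, Pi.smul_apply, smul_eq_mul,
    Matrix.cons_val_zero, Matrix.cons_val_one, Matrix.cons_val, dotProduct,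
    Fin.sum_univ_three] at h0 h1 h2 ⊢
  linear_combination (-x 0) * h0 + (-x 1) * h1 + (-x 2) * h2 + (cos ψ - 1) * hx

/-- There is a continuous quandle operation on `S²` that is isomorphic neither to the trivial
quandle nor to any spherical quandle. -/
theorem result : ∃ op : S2 → S2 → S2, IsTopQuandle op ∧ ¬ IsoTrivial op ∧
    ∀ ψ : ℝ, 0 < ψ → ψ < 2 * π → ¬ IsoSpherical op ψ := by
  refine ⟨op, isTopQuandle_op, ?_, ?_⟩
  · rintro ⟨φ, hφ⟩
    exact op_q_south (φ.injective (hφ q south))
  · rintro ψ h0 h2π ⟨φ, hφ⟩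
    have hcos : cos ψ ≠ 1 := by
      intro h
      rw [cos_eq_one_iff_of_lt_of_lt (by linarith) h2π] at h
      exact h0.ne' h
    have key : ∀ x : S2, (1 - cos ψ) * (1 - dotProduct (φ north).1 x.1 ^ 2) = 0 := by
      intro x
      apply rot_fixed x.2
      have := hφ (φ.symm x) north
      rw [op_north, φ.apply_symm_apply] at this
      exact this.symm
    have hne : (1 - cos ψ) ≠ 0 := sub_ne_zero.mpr (Ne.symm hcos)
    have k0 := (mul_eq_zero.mp (key e0)).resolve_left hne
    have k1 := (mul_eq_zero.mp (key e1)).resolve_left hne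
    have hw := (φ north).2
    simp only [dotProduct, Fin.sum_univ_three, e0, e1, Matrix.cons_val_zero, Matrix.cons_val_one,
      Matrix.cons_val] at k0 k1
    nlinarith [sq_nonneg ((φ north).1 2)]

end Pool.Agent.Results.MP_6238b5_al.ExoticQuandle
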